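import Pool.Agent.helper91.ADV.SpecL

/-! Row ADL of ADV. -/

set_option autoImplicit false

namespace Pool.Agent.ADV

open Finset Pool.Agent.helper55.NT Pool.Agent.LNB Pool.Agent.NG Pool.Agent.PB Pool.Agent.PC

theorem ADL : ADL_stmt := by
  classical
  intro n D f g hD
  have h0 : 0 ≤ agr D f g := by
    unfold agr
    refine Finset.sum_nonneg fun x _ => ?_
    split_ifs
    · exact hD.1 x
    · exact le_refl _
  have h1 : agr D f g ≤ 1 := by
    rw [← hD.2]
    unfold agr
    refine Finset.sum_le_sum fun x _ => ?_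
    split_ifs
    · exact le_refl _
    · exact hD.1 x
  refine ⟨h0, h1, ?_, ?_, ?_⟩
  · unfold adv
    rw [abs_le]
    constructor <;> linarith
  · rw [eq_sub_iff_add_eq]
    rw [← hD.2]
    unfold agr
    rw [← Finset.sum_add_distrib]
    refine Finset.sum_congr rfl fun x _ => ?_
    by_cases hf : f x
    · cases hg : g x <;> simp [hf, hg]
    · cases hg : g x <;> simp [hf, hg]
  · intro h
    rw [← hD.2]
    unfold agr
    refine Finset.sum_congr rfl fun x _ => ?_
    rw [if_pos (h x)]

end Pool.Agent.ADV
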