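import Pool.Agent.helper93.ADV.SpecU

/-! Row ALN of ADV. -/

set_option autoImplicit false

namespace Pool.Agent.ADV

open Finset Pool.Agent.helper38.Neg Pool.Agent.helper55.NT Pool.Agent.LNB

theorem ALN_one (v : ℕ → Bool) (n : ℕ) :
    2 * (∑ i ∈ range (n + 1), if (v i = true ↔ i % 2 = 0) then 1 else 0) + 1 ≤
      (n + 1) + 2 * (∑ i ∈ range n, if (v i = true ∧ v (i + 1) = false) then 1 else 0) +
        (if v n = true then 1 else 0) + (if (v n = true ↔ n % 2 = 0) then 1 else 0) := by
  induction n with
  | zero =>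
    simp only [zero_add, range_one, sum_singleton, range_zero, sum_empty, mul_zero, add_zero]
    cases v 0 <;> simp
  | succ n ih =>
    rw [sum_range_succ (fun i => if (v i = true ↔ i % 2 = 0) then 1 else 0) (n + 1),
      sum_range_succ (fun i => if (v i = true ∧ v (i + 1) = false) then 1 else 0) n]
    generalize (∑ i ∈ range (n + 1), if (v i = true ↔ i % 2 = 0) then 1 else 0) = A at ih ⊢
    generalize (∑ i ∈ range n, if (v i = true ∧ v (i + 1) = false) then 1 else 0) = D at ih ⊢
    rcases Nat.mod_two_eq_zero_or_one n with h | h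
    · have h' : (n + 1) % 2 = 1 := by omega
      cases h1 : v n <;> cases h2 : v (n + 1) <;> simp [h, h', h1] at ih ⊢ <;> omega
    · have h' : (n + 1) % 2 = 0 := by omega
      cases h1 : v n <;> cases h2 : v (n + 1) <;> simp [h, h', h1] at ih ⊢ <;> omega

theorem ALN_two (v : ℕ → Bool) (n : ℕ) :
    2 * (∑ i ∈ range (n + 1), if ((!(v i)) = true ↔ i % 2 = 0) then 1 else 0) ≤
      (n + 1) + 2 * (∑ i ∈ range n, if (v i = true ∧ v (i + 1) = false) then 1 else 0) +
        (if v n = true then 1 else 0) + (if ((!(v n)) = true ↔ n % 2 = 0) then 1 else 0) := by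
  induction n with
  | zero =>
    simp only [zero_add, range_one, sum_singleton, range_zero, sum_empty, mul_zero, add_zero]
    cases v 0 <;> simp
  | succ n ih =>
    rw [sum_range_succ (fun i => if ((!(v i)) = true ↔ i % 2 = 0) then 1 else 0) (n + 1),
      sum_range_succ (fun i => if (v i = true ∧ v (i + 1) = false) then 1 else 0) n]
    generalize (∑ i ∈ range (n + 1), if ((!(v i)) = true ↔ i % 2 = 0) then 1 else 0) = A at ih ⊢
    generalize (∑ i ∈ range n, if (v i = true ∧ v (i + 1) = false) then 1 else 0) = D at ih ⊢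
    rcases Nat.mod_two_eq_zero_or_one n with h | h
    · have h' : (n + 1) % 2 = 1 := by omega
      cases h1 : v n <;> cases h2 : v (n + 1) <;> simp [h, h', h1] at ih ⊢ <;> omega
    · have h' : (n + 1) % 2 = 0 := by omega
      cases h1 : v n <;> cases h2 : v (n + 1) <;> simp [h, h', h1] at ih ⊢ <;> omega

theorem ALN : ALN_stmt := by
  intro N d v hN hd
  obtain ⟨n, rfl⟩ : ∃ n, N = n + 1 := ⟨N - 1, by omega⟩
  have hn : n % 2 = 0 := by omega
  rw [Nat.add_sub_cancel, card_filter] at hd
  have h1 := ALN_one v n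
  have h2 := ALN_two v n
  rw [card_filter, card_filter]
  constructor
  · have h3 : (if v n = true then 1 else 0) ≤ 1 := by split_ifs <;> omega
    have h4 : (if (v n = true ↔ n % 2 = 0) then 1 else 0) ≤ 1 := by split_ifs <;> omega
    omega
  · have h3 : (if v n = true then 1 else 0) + (if ((!(v n)) = true ↔ n % 2 = 0) then 1 else 0) ≤ 1 := by
      cases v n <;> simp [hn]
    omega

end Pool.Agent.ADV
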