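import Pool.Agent.helper91.ADV.SpecM
import Pool.Agent.helper43.LN.TUP

/-! Row MUP of ADV. -/

set_option autoImplicit false

namespace Pool.Agent.ADV

open Finset Pool.Agent.helper38.Neg Pool.Agent.helper55.NT Pool.Agent.LNB

theorem MUP_core (h1 : MWC_stmt) (h2 : MAV_stmt) (n s u b r : ℕ) (C : Circuit n s) (o : Fin (n + s))
    (hm : MonoIn u (fun x => C.val x o = true)) (hb : 1 ≤ b) (D : (Fin n → Bool) → ℝ) (hD : IsDist D)
    (hr : 2 ^ r ≤ 2 * (n + n) + 2) :
    ∃ s' ≤ 18 * b * (s + 5 * n + 7) * (n + n + 2) ^ (b + 2) + n + 1, ∃ (C' : Circuit n s') (o' : Fin (n + s')),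
      FewDep u r C' ∧ 1 / (4 * ((min u n / (b * 2 ^ r) : ℕ) : ℝ) + 2) ≤
        adv D (fun x => C.val x o = true) fun x => C'.val x o' := by
  have hB : 1 ≤ b * 2 ^ r := Nat.mul_pos hb (by positivity)
  obtain ⟨w, hw⟩ := h2 n u (b * 2 ^ r) hB (fun x => C.val x o) D hD
  rcases hw with hw | hw
  · obtain ⟨s', hs', C', o', hF, hv⟩ := h1 n s u b r w C o hm hb hr
    refine ⟨s', hs'.trans ?_, C', o', hF, ?_⟩
    · gcongr
      omega
    · have e : (fun x => C'.val x o') = winu u w (b * 2 ^ r) (fun x => C.val x o) := funext hv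
      rw [e]
      exact hw
  · have hc : ∀ x : Fin n → Bool,
        (Circuit.snoc Circuit.nil (Gate.const true) : Circuit n (0 + 1)).val x (Fin.last (n + 0)) = true := by
      intro x
      simp [Circuit.val, Gate.eval]
    obtain ⟨s', hs', C', o', hF, hv⟩ := h1 n (0 + 1) u b r w (Circuit.snoc Circuit.nil (Gate.const true))
      (Fin.last (n + 0)) (fun x y _ _ _ => hc y) hb hr
    refine ⟨s', hs'.trans ?_, C', o', hF, ?_⟩
    · have h3 : 18 * b * (0 + 1 + 5 * n + 6) ≤ 18 * b * (s + 5 * n + 7) := Nat.mul_le_mul_left _ (by omega)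
      have h4 := Nat.mul_le_mul_right ((n + n + 2) ^ (b + 2)) h3
      omega
    · have e2 : (fun x => (Circuit.snoc Circuit.nil (Gate.const true) : Circuit n (0 + 1)).val x (Fin.last (n + 0))) =
          fun _ => true := funext hc
      have e : (fun x => C'.val x o') = winu u w (b * 2 ^ r) (fun _ => true) := by
        rw [← e2]
        exact funext hv
      rw [e]
      exact hw

theorem MUP (h1 : MWC_stmt) (h2 : MAV_stmt) : MUP_stmt := by
  intro n s u b r C o hm hb D hD
  by_cases hr : 2 ^ r ≤ 2 * (n + n) + 2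
  · exact MUP_core h1 h2 n s u b r C o hm hb D hD hr
  · have h3 : min u n + 1 ≤ b * 2 ^ r := by
      have h4 : min u n ≤ n := min_le_right _ _
      have h5 : 2 ^ r ≤ b * 2 ^ r := Nat.le_mul_of_pos_left _ (by omega)
      omega
    obtain ⟨r', hr', hle, hr2⟩ := Pool.Agent.LN.TUP_r u n b r hb h3
    obtain ⟨s', hs', C', o', hF, hv⟩ := MUP_core h1 h2 n s u b r' C o hm hb D hD hle
    refine ⟨s', hs', C', o', ?_, ?_⟩
    · obtain ⟨S, hS, hS'⟩ := hF
      exact ⟨S, hS.trans hr', hS'⟩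
    · rw [Nat.div_eq_of_lt (by omega : min u n < b * 2 ^ r)]
      rw [Nat.div_eq_of_lt (by omega : min u n < b * 2 ^ r')] at hv
      exact hv

end Pool.Agent.ADV
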